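import Pool.Agent.Helper47.M.Defs
import Pool.Agent.Helper15.Der

/-!
# Theorem M, block T: fibres over the other factors (derivations)
-/

set_option autoImplicit false

namespace Pool.Agent.Helper76.M

open Pool.Agent.Helper47.M

variable {k l : ℕ} {N : Fin k → ℕ} {d : Fin l → Fin k → ℕ}

section tens

variable {e : Fin k → ℕ} {S : Type*} [CommRing S]

/-- The arguments `X` with `v` at the place `(j, t)`. -/
abbrev sl (X : ∀ r, Fin (e r) → Fin (N r + 1) → S) (j : Fin k) (t : Fin (e j))
    (v : Fin (N j + 1) → S) : ∀ r, Fin (e r) → Fin (N r + 1) → S :=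
  Function.update X j (Function.update (X j) t v)

theorem prod_sl (X : ∀ r, Fin (e r) → Fin (N r + 1) → S) (j : Fin k) (t : Fin (e j))
    (v : Fin (N j + 1) → S) (m : Tn N e) :
    ∏ r, ∏ s, sl X j t v r s (m r s) =
      v (m j t) * ((∏ s ∈ Finset.univ.erase t, X j s (m j s)) *
        ∏ r ∈ Finset.univ.erase j, ∏ s, X r s (m r s)) := by
  rw [← Finset.mul_prod_erase Finset.univ _ (Finset.mem_univ j),
    ← Finset.mul_prod_erase Finset.univ (fun s => sl X j t v j s (m j s)) (Finset.mem_univ t),
    mul_assoc]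
  congr 1
  · simp [sl]
  · congr 1
    · refine Finset.prod_congr rfl fun s hs => ?_
      have hs' : s ≠ t := (Finset.mem_erase.1 hs).1
      simp [sl, Function.update_of_ne hs']
    · refine Finset.prod_congr rfl fun r hr => ?_
      have hr' : r ≠ j := (Finset.mem_erase.1 hr).1
      simp [sl, Function.update_of_ne hr']

theorem tv_sl (a : Tn N e → S) (X : ∀ r, Fin (e r) → Fin (N r + 1) → S) (j : Fin k)
    (t : Fin (e j)) (v : Fin (N j + 1) → S) :
    tv a (sl X j t v) = ∑ m : Tn N e, (a m * ((∏ s ∈ Finset.univ.erase t, X j s (m j s)) *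
        ∏ r ∈ Finset.univ.erase j, ∏ s, X r s (m r s))) * v (m j t) := by
  unfold tv
  refine Finset.sum_congr rfl fun m _ => ?_
  rw [prod_sl]
  ring

/-- `dv` as a linear map. -/
def dvL (a : Tn N e → S) (x : Pt N S) (j : Fin k) : (Fin (N j + 1) → S) →ₗ[S] S where
  toFun b := dv a x j b
  map_add' b b' := by
    unfold dv
    rw [← Finset.sum_add_distrib]
    refine Finset.sum_congr rfl fun t _ => ?_
    have h : ∀ v, slot e x j t v = sl (fun r _ => x r) j t v := fun v => rfl
    rw [h, h, h, tv_sl, tv_sl, tv_sl, ← Finset.sum_add_distrib]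
    refine Finset.sum_congr rfl fun m _ => ?_
    rw [Pi.add_apply]
    ring
  map_smul' u b := by
    unfold dv
    rw [RingHom.id_apply, smul_eq_mul, Finset.mul_sum]
    refine Finset.sum_congr rfl fun t _ => ?_
    have h : ∀ v, slot e x j t v = sl (fun r _ => x r) j t v := fun v => rfl
    rw [h, h, tv_sl, tv_sl, Finset.mul_sum]
    refine Finset.sum_congr rfl fun m _ => ?_
    rw [Pi.smul_apply, smul_eq_mul]
    ring

theorem dvL_apply (a : Tn N e → S) (x : Pt N S) (j : Fin k) (b : Fin (N j + 1) → S) :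
    dvL a x j b = dv a x j b := rfl

theorem eul (a : Tn N e → S) (x : Pt N S) (j : Fin k) :
    dv a x j (x j) = (e j : S) * fv a x := by
  unfold dv fv
  have h : ∀ t : Fin (e j), slot e x j t (x j) = fun r _ => x r := by
    intro t
    unfold slot
    rw [Function.update_eq_self t (fun _ : Fin (e j) => x j)]
    exact Function.update_eq_self j (fun r (_ : Fin (e r)) => x r)
  simp_rw [h]
  rw [Finset.sum_const, Finset.card_univ, Fintype.card_fin, nsmul_eq_mul]

theorem leib_prod {R ι : Type*} [CommRing R] [Algebra R S] (D : Derivation R S S)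
    [DecidableEq ι] (s : Finset ι) (f : ι → S) :
    D (∏ i ∈ s, f i) = ∑ i ∈ s, D (f i) * ∏ i' ∈ s.erase i, f i' := by
  induction s using Finset.induction_on with
  | empty => simp
  | insert a s ha ih =>
    rw [Finset.prod_insert ha, D.leibniz, ih, Finset.sum_insert ha, Finset.erase_insert ha,
      smul_eq_mul, smul_eq_mul, add_comm, mul_comm, Finset.mul_sum]
    congr 1
    refine Finset.sum_congr rfl fun i hi => ?_
    have h : i ≠ a := fun h => ha (h ▸ hi)
    rw [Finset.erase_insert_of_ne h.symm, Finset.prod_insert (fun h' => ha (Finset.mem_of_mem_erase h'))]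
    ring

/-- The chain rule for a derivation which kills the arguments of the factors other than `j`. -/
theorem tv_der {R : Type*} [CommRing R] [Algebra R S] (D : Derivation R S S) (a : Tn N e → S)
    (ha : ∀ m, D (a m) = 0) (X : ∀ r, Fin (e r) → Fin (N r + 1) → S) (j : Fin k)
    (hX : ∀ r, r ≠ j → ∀ t i, D (X r t i) = 0) :
    D (tv a X) = ∑ t : Fin (e j), tv a (sl X j t fun i => D (X j t i)) := by
  simp_rw [tv_sl]
  rw [Finset.sum_comm]
  unfold tv
  rw [map_sum]
  refine Finset.sum_congr rfl fun m _ => ?_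
  have h0 : D (∏ r ∈ Finset.univ.erase j, ∏ s, X r s (m r s)) = 0 := by
    rw [leib_prod]
    refine Finset.sum_eq_zero fun r hr => ?_
    rw [leib_prod, Finset.sum_eq_zero, zero_mul]
    intro s _
    rw [hX r (Finset.mem_erase.1 hr).1, zero_mul]
  rw [← Finset.mul_prod_erase Finset.univ _ (Finset.mem_univ j), D.leibniz, ha, smul_zero,
    add_zero, D.leibniz, h0, smul_zero, zero_add, leib_prod, smul_eq_mul, smul_eq_mul,
    Finset.mul_sum, Finset.mul_sum]
  refine Finset.sum_congr rfl fun t _ => ?_
  ring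

theorem fv_der1 {R : Type*} [CommRing R] [Algebra R S] (D : Derivation R S S) (a : Tn N e → S)
    (ha : ∀ m, D (a m) = 0) (x : Pt N S) (j : Fin k) (hx : ∀ r, r ≠ j → ∀ i, D (x r i) = 0) :
    D (fv a x) = dv a x j fun i => D (x j i) :=
  tv_der D a ha (fun r _ => x r) j fun r hr _ i => hx r hr i

/-- The chain rule for the derivative in the factor `j`. -/
theorem dv_der1 {R : Type*} [CommRing R] [Algebra R S] (D : Derivation R S S) (a : Tn N e → S)
    (ha : ∀ m, D (a m) = 0) (x : Pt N S) (j : Fin k) (hx : ∀ r, r ≠ j → ∀ i, D (x r i) = 0)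
    (b : Fin (N j + 1) → S) :
    D (dv a x j b) = dv a x j (fun i => D (b i)) + ∑ t : Fin (e j), ∑ t' ∈ Finset.univ.erase t,
      tv a (sl (sl (fun r _ => x r) j t b) j t' fun i => D (x j i)) := by
  unfold dv
  rw [map_sum, ← Finset.sum_add_distrib]
  refine Finset.sum_congr rfl fun t _ => ?_
  rw [tv_der D a ha (slot e x j t b) j]
  · rw [← Finset.add_sum_erase Finset.univ _ (Finset.mem_univ t)]
    congr 1
    · congr 1
      unfold slot sl
      simp
    · refine Finset.sum_congr rfl fun t' ht' => ?_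
      have h : t' ≠ t := (Finset.mem_erase.1 ht').1
      congr 1
      unfold slot sl
      simp [Function.update_of_ne h]
  · intro r hr t' i
    unfold slot
    rw [Function.update_of_ne hr]
    exact hx r hr i

/-- Degree one. -/
theorem dv_der_one {R : Type*} [CommRing R] [Algebra R S] (D : Derivation R S S) (a : Tn N e → S)
    (ha : ∀ m, D (a m) = 0) (x : Pt N S) (j : Fin k) (hx : ∀ r, r ≠ j → ∀ i, D (x r i) = 0)
    (b : Fin (N j + 1) → S) (he : e j = 1) :
    D (dv a x j b) = dv a x j (fun i => D (b i)) := by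
  rw [dv_der1 D a ha x j hx b]
  have h : ∀ t : Fin (e j), Finset.univ.erase t = ∅ := by
    intro t
    rw [Finset.eq_empty_iff_forall_notMem]
    intro t' ht'
    apply (Finset.mem_erase.1 ht').1
    apply Fin.ext
    have h1 := t.2
    have h2 := t'.2
    omega
  simp_rw [h]
  simp

/-- Degree two. -/
theorem dv_der_two {R : Type*} [CommRing R] [Algebra R S] (D : Derivation R S S) (a : Tn N e → S)
    (ha : ∀ m, D (a m) = 0) (x : Pt N S) (j : Fin k) (hx : ∀ r, r ≠ j → ∀ i, D (x r i) = 0)
    (he : e j = 2) :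
    D (dv a x j fun i => D (x j i)) = dv a x j (fun i => D (D (x j i))) +
      2 * fv a (Function.update x j fun i => D (x j i)) := by
  rw [dv_der1 D a ha x j hx _]
  congr 1
  have h : ∀ t : Fin (e j), ∀ t' ∈ Finset.univ.erase t,
      tv a (sl (sl (fun r _ => x r) j t fun i => D (x j i)) j t' fun i => D (x j i)) =
        fv a (Function.update x j fun i => D (x j i)) := by
    intro t t' ht'
    have h1 : t' ≠ t := (Finset.mem_erase.1 ht').1
    unfold fv
    congr 1
    funext r
    by_cases hr : r = j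
    · subst hr
      funext s
      unfold sl
      rw [Function.update_self, Function.update_self, Function.update_self]
      by_cases hs : s = t'
      · rw [hs, Function.update_self]
      · have hs' : s = t := by
          apply Fin.ext
          have h2 : (t' : ℕ) ≠ t := fun h' => h1 (Fin.ext h')
          have h3 : (s : ℕ) ≠ t' := fun h' => hs (Fin.ext h')
          have h4 := t.2
          have h5 := t'.2
          have h6 := s.2
          omega
        rw [Function.update_of_ne hs, hs', Function.update_self]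
    · unfold sl
      rw [Function.update_of_ne hr, Function.update_of_ne hr, Function.update_of_ne hr]
  have h' : ∀ t : Fin (e j), ∑ t' ∈ Finset.univ.erase t,
      tv a (sl (sl (fun r _ => x r) j t fun i => D (x j i)) j t' fun i => D (x j i)) =
        ((e j - 1 : ℕ) : S) * fv a (Function.update x j fun i => D (x j i)) := by
    intro t
    rw [Finset.sum_congr rfl (h t), Finset.sum_const, Finset.card_erase_of_mem (Finset.mem_univ t),
      Finset.card_univ, Fintype.card_fin, nsmul_eq_mul]
  rw [Finset.sum_congr rfl fun t _ => h' t, Finset.sum_const, Finset.card_univ, Fintype.card_fin,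
    nsmul_eq_mul, he]
  norm_num

end tens

theorem exists_two (h : Ty N d) (j : Fin k) (hj : N j = l) :
    ∃ i0, d i0 j = 2 ∧ ∀ i, i ≠ i0 → d i j = 1 := by
  have h1 : ∑ i, (d i j - 1) = 1 := by
    have h2 : ∑ i, d i j = ∑ i, ((d i j - 1) + 1) :=
      Finset.sum_congr rfl fun i _ => (Nat.sub_add_cancel (h.pos i j)).symm
    rw [h.sum j, Finset.sum_add_distrib, Finset.sum_const, Finset.card_univ, Fintype.card_fin, hj]
      at h2
    simp only [smul_eq_mul, mul_one] at h2
    omega
  obtain ⟨i0, hi0⟩ : ∃ i0, d i0 j - 1 ≠ 0 := by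
    by_contra hno
    push Not at hno
    rw [Finset.sum_eq_zero fun i _ => hno i] at h1
    exact absurd h1 (by norm_num)
  have h3 := Finset.add_sum_erase Finset.univ (fun i => d i j - 1) (Finset.mem_univ i0)
  rw [h1] at h3
  have h4 : ∑ i ∈ Finset.univ.erase i0, (d i j - 1) = 0 := by
    have : 1 ≤ d i0 j - 1 := Nat.one_le_iff_ne_zero.2 hi0
    omega
  refine ⟨i0, ?_, fun i hi => ?_⟩
  · have := h.pos i0 j
    omega
  · have h5 := (Finset.sum_eq_zero_iff.1 h4) i (Finset.mem_erase.2 ⟨hi, Finset.mem_univ i⟩)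
    have := h.pos i j
    omega

section fib

variable {K Ω : Type} [Field K] [Field Ω] [Algebra K Ω]

/-- Independent vectors in the kernel of a surjective map. -/
theorem ker_card {n m : ℕ} {ι : Type*} [Fintype ι] (T : (Fin n → Ω) →ₗ[Ω] (ι → Ω))
    (hT : ∀ lam : ι → Ω, (∀ b, ∑ i, lam i * T b i = 0) → lam = 0) (v : Fin m → Fin n → Ω)
    (hv : LinearIndependent Ω v) (hk : ∀ s, T (v s) = 0) : m + Fintype.card ι ≤ n := by
  classical
  have hr : LinearMap.range T = ⊤ := by
    by_contra hne
    obtain ⟨f, hf, hle⟩ := Submodule.exists_le_ker_of_lt_top (LinearMap.range T)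
      (lt_top_iff_ne_top.2 hne)
    apply hf
    have hfe : ∀ y : ι → Ω, f y = ∑ i, f (Pi.single i 1) * y i := by
      intro y
      conv_lhs => rw [pi_eq_sum_univ' y]
      rw [map_sum]
      refine Finset.sum_congr rfl fun i _ => ?_
      rw [map_smul, smul_eq_mul, mul_comm]
    have hlam := hT (fun i => f (Pi.single i 1)) fun b => by
      rw [← hfe]
      exact hle ⟨b, rfl⟩
    refine LinearMap.ext fun y => ?_
    rw [hfe, LinearMap.zero_apply]
    refine Finset.sum_eq_zero fun i _ => ?_
    have h1 := congrFun hlam i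
    simp only [Pi.zero_apply] at h1
    rw [h1, zero_mul]
  have h1 := T.finrank_range_add_finrank_ker
  rw [hr, finrank_top, Module.finrank_fintype_fun_eq_card, Module.finrank_fintype_fun_eq_card,
    Fintype.card_fin] at h1
  let w : Fin m → LinearMap.ker T := fun s => ⟨v s, hk s⟩
  have hw : LinearIndependent Ω w := by
    apply LinearIndependent.of_comp (LinearMap.ker T).subtype
    exact hv
  have h2 := hw.fintype_card_le_finrank
  rw [Fintype.card_fin] at h2
  omega

/-- Three independent vectors. -/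
theorem ind3 {n : ℕ} (u v w : Fin n → Ω) (h : ∀ α β γ : Ω,
    (∀ i, α * u i + β * v i + γ * w i = 0) → α = 0 ∧ β = 0 ∧ γ = 0) :
    LinearIndependent Ω ![u, v, w] := by
  rw [Fintype.linearIndependent_iff]
  intro g hg
  rw [Fin.sum_univ_three] at hg
  obtain ⟨h0, h1, h2⟩ := h (g 0) (g 1) (g 2) fun i => by
    have := congrFun hg i
    simpa using this
  intro i
  fin_cases i
  · exact h0
  · exact h1
  · exact h2

/-- The derivatives of the forms as a linear map. -/
def dFL (c : Tx N d → Ω) (x : Pt N Ω) (j : Fin k) : (Fin (N j + 1) → Ω) →ₗ[Ω] (Fin l → Ω) :=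
  LinearMap.pi fun i => dvL (fun m => c ⟨i, m⟩) x j

theorem dFL_apply (c : Tx N d → Ω) (x : Pt N Ω) (j : Fin k) (b : Fin (N j + 1) → Ω) (i : Fin l) :
    dFL c x j b i = dF c x j b i := rfl

/-- Derivatives over `Bf K x {j}` of the equations. -/
theorem dF_der (c : Tx N d → K) (x : Pt N Ω)
    (hx : ∀ i, Fm (fun e => algebraMap K Ω (c e)) x i = 0) (j : Fin k)
    (D : Derivation (Bf K x {j}) Ω Ω) :
    (∀ m, D (algebraMap K Ω (c m)) = 0) ∧ (∀ r, r ≠ j → ∀ i, D (x r i) = 0) ∧
      ∀ i, dF (fun e => algebraMap K Ω (c e)) x j (fun b => D (x j b)) i = 0 := by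
  have h1 : ∀ y : Ω, y ∈ Bf K x {j} → D y = 0 := fun y hy => D.map_algebraMap ⟨y, hy⟩
  have h2 : ∀ m, D (algebraMap K Ω (c m)) = 0 := fun m =>
    h1 _ ((Bf K x {j}).algebraMap_mem (c m))
  have h3 : ∀ r, r ≠ j → ∀ i, D (x r i) = 0 := fun r hr i =>
    h1 _ (IntermediateField.subset_adjoin K _ ⟨r, hr, i, rfl⟩)
  refine ⟨h2, h3, fun i => ?_⟩
  have h4 := fv_der1 D (fun m => algebraMap K Ω (c ⟨i, m⟩)) (fun m => h2 _) x j h3
  have h5 : fv (fun m => algebraMap K Ω (c ⟨i, m⟩)) x = 0 := hx i
  rw [h5, map_zero] at h4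
  exact h4.symm

theorem euler_eq (c : Tx N d → K) (x : Pt N Ω)
    (hx : ∀ i, Fm (fun e => algebraMap K Ω (c e)) x i = 0) (j : Fin k) (i : Fin l) :
    dF (fun e => algebraMap K Ω (c e)) x j (x j) i = 0 := by
  have h5 : fv (fun m => algebraMap K Ω (c ⟨i, m⟩)) x = 0 := hx i
  unfold dF
  rw [eul, h5, mul_zero]

end fib

section T

variable {K Ω : Type} [Field K] [CharZero K] [Field Ω] [Algebra K Ω]

set_option linter.unusedVariables false in
theorem dep_of_nice (h : Ty N d) (c : Tx N d → K) (x : Pt N Ω)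
    (hx : ∀ i, Fm (fun e => algebraMap K Ω (c e)) x i = 0)
    (hn : Nice (fun e => algebraMap K Ω (c e)) x) (j : Fin k) (hj : N j = l + 1)
    (h1 : x j 0 = 1) :
    ∀ i i', ¬ AlgebraicIndependent (Bf K x {j}) ![x j i, x j i'] := by
  intro i i' hind
  have : CharZero (Bf K x {j}) :=
    charZero_of_injective_algebraMap (algebraMap K (Bf K x {j})).injective
  obtain ⟨D1, hD1⟩ := Pool.Agent.Helper15.Der.exists_derivation _ hind ![1, 0]
  obtain ⟨D2, hD2⟩ := Pool.Agent.Helper15.Der.exists_derivation _ hind ![0, 1]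
  have a1 : D1 (x j i) = 1 := hD1 0
  have a2 : D1 (x j i') = 0 := hD1 1
  have b1 : D2 (x j i) = 0 := hD2 0
  have b2 : D2 (x j i') = 1 := hD2 1
  have hli : LinearIndependent Ω ![x j, fun b => D1 (x j b), fun b => D2 (x j b)] := by
    refine ind3 _ _ _ fun α β γ he => ?_
    have e0 := he 0
    rw [h1, D1.map_one_eq_zero, D2.map_one_eq_zero, mul_zero, mul_zero, mul_one, add_zero,
      add_zero] at e0
    have e1 := he i
    have e2 := he i'
    rw [a1, b1, e0] at e1
    rw [a2, b2, e0] at e2
    refine ⟨e0, ?_, ?_⟩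
    · simpa using e1
    · simpa using e2
  have hc := ker_card (dFL (fun e => algebraMap K Ω (c e)) x j) (hn.j1 j hj) _ hli fun s => by
    funext i1
    fin_cases s
    · exact euler_eq c x hx j i1
    · exact (dF_der c x hx j D1).2.2 i1
    · exact (dF_der c x hx j D2).2.2 i1
  rw [Fintype.card_fin] at hc
  omega

theorem alg_of_nice (h : Ty N d) (c : Tx N d → K) (x : Pt N Ω)
    (hx : ∀ i, Fm (fun e => algebraMap K Ω (c e)) x i = 0)
    (hn : Nice (fun e => algebraMap K Ω (c e)) x) (j : Fin k) (hj : N j = l) (h1 : x j 0 = 1) :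
    ∀ i, IsAlgebraic (Bf K x {j}) (x j i) := by
  intro i
  by_contra htr
  have : CharZero (Bf K x {j}) :=
    charZero_of_injective_algebraMap (algebraMap K (Bf K x {j})).injective
  have hcz : CharZero Ω := charZero_of_injective_algebraMap (algebraMap K Ω).injective
  obtain ⟨D, hD⟩ := Pool.Agent.Helper15.Der.exists_derivation (k := Bf K x {j})
    (fun _ : Unit => x j i) (algebraicIndependent_unique_type_iff.mpr htr) (fun _ => 1)
  have a1 : D (x j i) = 1 := hD ()
  obtain ⟨i0, hi0, hi1⟩ := exists_two h j hj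
  obtain ⟨hc, hr, hb⟩ := dF_der c x hx j D
  have hDb : ∀ i1, i1 ≠ i0 →
      dF (fun e => algebraMap K Ω (c e)) x j (fun b => D (D (x j b))) i1 = 0 := by
    intro i1 hi
    have h2 := dv_der_one D (fun m => algebraMap K Ω (c ⟨i1, m⟩)) (fun m => hc _) x j hr
      (fun b => D (x j b)) (hi1 i1 hi)
    have h3 : dv (fun m => algebraMap K Ω (c ⟨i1, m⟩)) x j (fun b => D (x j b)) = 0 := hb i1
    rw [h3, map_zero] at h2
    exact h2.symm
  have hz : (fun b => D (D (x j b))) = 0 := by
    by_contra hne
    have hli : LinearIndependent Ω ![x j, fun b => D (x j b), fun b => D (D (x j b))] := by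
      refine ind3 _ _ _ fun α β γ he => ?_
      have e0 := he 0
      rw [h1, D.map_one_eq_zero, map_zero, mul_zero, mul_zero, mul_one, add_zero,
        add_zero] at e0
      have e1 := he i
      rw [a1, D.map_one_eq_zero, e0, mul_zero, mul_one, zero_mul, zero_add, add_zero] at e1
      refine ⟨e0, e1, ?_⟩
      by_contra hγ
      apply hne
      funext b
      have e2 := he b
      rw [e0, e1, zero_mul, zero_mul, zero_add, zero_add] at e2
      exact (mul_eq_zero.1 e2).resolve_left hγ
    have hcard := ker_card (ι := {i1 : Fin l // i1 ≠ i0})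
      (LinearMap.pi fun i1 => dvL (fun m => algebraMap K Ω (c ⟨i1.1, m⟩)) x j) (fun lam hlam => by
        classical
        have h2 := hn.j2 j hj i0 hi0 (fun i1 => if hi : i1 ≠ i0 then lam ⟨i1, hi⟩ else 0)
          (by simp) (fun b => by
            have h3 := hlam b
            rw [← Finset.add_sum_erase Finset.univ _ (Finset.mem_univ i0)]
            have h4 : (if hi : i0 ≠ i0 then lam ⟨i0, hi⟩ else 0) = 0 := by simp
            rw [h4, zero_mul, zero_add]
            refine Eq.trans ?_ h3
            rw [Finset.sum_subtype (Finset.univ.erase i0) (p := fun i1 => i1 ≠ i0)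
              (fun i1 => by simp) (fun i1 => (if hi : i1 ≠ i0 then lam ⟨i1, hi⟩ else 0) *
                dF (fun e => algebraMap K Ω (c e)) x j b i1)]
            refine Finset.sum_congr rfl fun i1 _ => ?_
            rw [dif_pos i1.2]
            rfl)
        funext i1
        have h3 := congrFun h2 i1.1
        rw [dif_pos i1.2] at h3
        exact h3) _ hli fun s => by
        funext i1
        fin_cases s
        · exact euler_eq c x hx j i1.1
        · exact hb i1.1
        · exact hDb i1.1 i1.2
    have h5 : Fintype.card {i1 : Fin l // i1 ≠ i0} = l - 1 := by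
      rw [Fintype.card_subtype_compl, Fintype.card_fin, Fintype.card_unique]
    have h6 := i0.pos
    omega
  have h7 := dv_der_two D (fun m => algebraMap K Ω (c ⟨i0, m⟩)) (fun m => hc _) x j hr hi0
  have h8 : dv (fun m => algebraMap K Ω (c ⟨i0, m⟩)) x j (fun b => D (x j b)) = 0 := hb i0
  have h9 : dv (fun m => algebraMap K Ω (c ⟨i0, m⟩)) x j (fun b => D (D (x j b))) = 0 := by
    rw [hz]
    exact (dvL (fun m => algebraMap K Ω (c ⟨i0, m⟩)) x j).map_zero
  rw [h8, map_zero, h9, zero_add] at h7
  have h10 : Fm (fun e => algebraMap K Ω (c e)) (Function.update x j fun b => D (x j b)) i0 = 0 :=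
    (mul_eq_zero.1 h7.symm).resolve_left two_ne_zero
  have h11 := hn.j3 j hj i0 hi0 (fun b => D (x j b))
    (by rw [h1]; exact D.map_one_eq_zero) hb h10
  have h12 := congrFun h11 i
  rw [a1] at h12
  exact one_ne_zero h12

end T

end Pool.Agent.Helper76.M
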